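import Pool.Agent.Helper98.EY.StmtsC

/-!
Module `RTM`: modified left rates, expectation of a height.
-/

namespace Pool.Agent.Helper98.EX

open Finset

private lemma rtm_adm {N : ℕ} {r l : ℕ → ℝ} (hN : 1 ≤ N) (h : Adm N r l) :
    Adm N r (modl N l) := by
  intro x h1 h2
  obtain ⟨a, b, c, d⟩ := h x h1 h2
  refine ⟨a, b, ?_, ?_⟩
  · exact le_trans c (le_max_left _ _)
  · refine max_le d ?_
    have h1' : (1 : ℝ) ≤ N := by exact_mod_cast hN
    exact Real.rpow_le_one_of_one_le_of_nonpos h1' (by norm_num)

private lemma rtm_lip {N : ℕ} {r l : ℕ → ℝ} (h : Adm N r l) (b m : ℕ) {η ξ : Cfg N}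
    (hle1 : hle 1 η ξ) :
    ev r l (fun _ => full N) m (fun ζ => (ht ζ b : ℝ)) η ≤
      ev r l (fun _ => full N) m (fun ζ => (ht ζ b : ℝ)) ξ + 1 := by
  have key : ev r l (fun _ => full N) m (fun ζ => (ht ζ b : ℝ)) η ≤
      ev r l (fun _ => full N) m (fun ζ => (ht ζ b : ℝ) + 1) ξ := by
    refine ev_couple h (fun _ => full N) (fun _ => full N) m (fun _ a c => hle 1 a c)
      (fun i a c _ hh => hh) (fun i a c x _ _ _ hh => hle_RmS hh _ x)
      (fun i a c x _ _ _ hh => hle_LmS hh _ x) ?_ hle1
    intro a c hac
    have := hac b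
    show (ht a b : ℝ) ≤ (ht c b : ℝ) + 1
    exact_mod_cast this
  have e := ev_add_fun (r := r) (l := l) (fun _ => full N) m (fun ζ : Cfg N => (ht ζ b : ℝ))
    (fun _ => (1 : ℝ)) ξ
  have e2 := ev_const (r := r) (l := l) (fun _ => full N) m (1 : ℝ) ξ
  rw [e2] at e
  rw [← e]
  exact key

theorem st_RTM : ST_RTM := by
  intro N r l b m η hN hA
  have hA' := rtm_adm hN hA
  have hNR : (1 : ℝ) ≤ N := by exact_mod_cast hN
  set p : ℝ := (N : ℝ) ^ (-100 : ℝ) with hp
  have hp0 : 0 ≤ p := Real.rpow_nonneg (by linarith) _
  induction m generalizing η with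
  | zero => simp
  | succ m ih =>
    rw [ev_succ, ev_succ]
    show stp r l (full N) (ev r l (fun _ => full N) m (fun ξ => (ht ξ b : ℝ))) η ≤
      stp r (modl N l) (full N) (ev r (modl N l) (fun _ => full N) m (fun ξ => (ht ξ b : ℝ))) η +
        ((m + 1 : ℕ) : ℝ) * p
    set f : Cfg N → ℝ := ev r (modl N l) (fun _ => full N) m (fun ξ => (ht ξ b : ℝ)) with hf
    have s1 : stp r l (full N) (ev r l (fun _ => full N) m (fun ξ => (ht ξ b : ℝ))) η ≤
        stp r l (full N) (fun ξ => f ξ + m * p) η := stp_mono hA (fun ξ => ih ξ) η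
    have s2 : stp r l (full N) (fun ξ => f ξ + m * p) η = stp r l (full N) f η + m * p := by
      rw [stp_add r l (full N) f (fun _ => m * p), stp_const]
    have s3 : stp r l (full N) f η ≤ stp r (modl N l) (full N) f η + p := by
      unfold stp
      have hterm : ∀ x ∈ full N, (r x * (f (RmS (full N) x η) - f η) +
          l x * (f (LmS (full N) x η) - f η)) ≤
          (r x * (f (RmS (full N) x η) - f η) +
          modl N l x * (f (LmS (full N) x η) - f η)) + p := by
        intro x hx
        rw [full, Finset.mem_Ico] at hx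
        obtain ⟨_, _, l0, _⟩ := hA x hx.1 hx.2
        have m1 : 0 ≤ modl N l x - l x := by
          unfold modl; linarith [le_max_left (l x) p]
        have m2 : modl N l x - l x ≤ p := by
          have : modl N l x ≤ l x + p := by
            unfold modl; exact max_le (by linarith) (by linarith)
          linarith
        have hl1 : hle 1 η (LmS (full N) x η) := by
          intro y
          unfold LmS
          split_ifs
          · exact ht_Lm_ge η x y
          · omega
        have hL := rtm_lip hA' b m hl1
        have hL' : f η ≤ f (LmS (full N) x η) + 1 := hL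
        have e1 : (modl N l x - l x) * (f η - f (LmS (full N) x η)) ≤
            (modl N l x - l x) * 1 := mul_le_mul_of_nonneg_left (by linarith) m1
        nlinarith [e1, m2]
      have hsum := Finset.sum_le_sum hterm
      have hspl : ∑ x ∈ full N, ((r x * (f (RmS (full N) x η) - f η) +
          modl N l x * (f (LmS (full N) x η) - f η)) + p) =
          ∑ x ∈ full N, (r x * (f (RmS (full N) x η) - f η) +
          modl N l x * (f (LmS (full N) x η) - f η)) + ∑ _x ∈ full N, p :=
        Finset.sum_add_distrib
      rw [hspl] at hsum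
      have hcard : ∑ _x ∈ full N, p ≤ N * p := by
        rw [Finset.sum_const, nsmul_eq_mul]
        refine mul_le_mul_of_nonneg_right ?_ hp0
        have : (full N).card ≤ N := by rw [full, Nat.card_Ico]; omega
        exact_mod_cast this
      have h2N : (0 : ℝ) < 2 * N := by linarith
      have hdiv : (∑ x ∈ full N, (r x * (f (RmS (full N) x η) - f η) +
          l x * (f (LmS (full N) x η) - f η))) / (2 * N) ≤
          (∑ x ∈ full N, (r x * (f (RmS (full N) x η) - f η) +
          modl N l x * (f (LmS (full N) x η) - f η))) / (2 * N) + p := by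
        rw [div_add' _ _ _ (ne_of_gt h2N)]
        refine div_le_div_of_nonneg_right ?_ h2N.le
        nlinarith [hsum, hcard, hp0]
      linarith
    have e : ((m + 1 : ℕ) : ℝ) * p = m * p + p := by push_cast; ring
    rw [e]
    linarith

end Pool.Agent.Helper98.EX
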